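import Mathlib

set_option autoImplicit false

namespace Pool.Agent.H.MP_03b7b7_gt

open MeasureTheory

noncomputable def al (u : ℝ) (v : ℝ × ℝ) : ℝ := Real.sqrt (v.1 ^ 2 + (1 + u ^ 2) * v.2 ^ 2)

noncomputable def F (z : (ℝ × ℝ) × (ℝ × ℝ)) : ℝ := al z.1.1 z.2 + z.1.1 * z.2.2

abbrev e1 : ℝ × ℝ →L[ℝ] ℝ := ContinuousLinearMap.fst ℝ ℝ ℝ
abbrev e2 : ℝ × ℝ →L[ℝ] ℝ := ContinuousLinearMap.snd ℝ ℝ ℝ

lemma rad_pos {v : ℝ × ℝ} (h : v ≠ 0) : 0 < v.1 ^ 2 + v.2 ^ 2 := by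
  by_contra hc
  apply h
  have h1 : v.1 = 0 := by nlinarith [sq_nonneg v.1, sq_nonneg v.2]
  have h2 : v.2 = 0 := by nlinarith [sq_nonneg v.1, sq_nonneg v.2]
  exact Prod.ext h1 h2

lemma rad_pos' (u : ℝ) {v : ℝ × ℝ} (h : v ≠ 0) : 0 < v.1 ^ 2 + (1 + u ^ 2) * v.2 ^ 2 := by
  have := rad_pos h
  nlinarith [sq_nonneg (u * v.2)]

lemma al_pos (u : ℝ) {v : ℝ × ℝ} (h : v ≠ 0) : 0 < al u v := Real.sqrt_pos.2 (rad_pos' u h)

lemma al_sq (u : ℝ) (v : ℝ × ℝ) : al u v ^ 2 = v.1 ^ 2 + (1 + u ^ 2) * v.2 ^ 2 :=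
  Real.sq_sqrt (by positivity)

lemma al_nonneg (u : ℝ) (v : ℝ × ℝ) : 0 ≤ al u v := Real.sqrt_nonneg _

lemma F_nonneg (z : (ℝ × ℝ) × (ℝ × ℝ)) : 0 ≤ F z := by
  have h := abs_le_of_sq_le_sq' (a := z.1.1 * z.2.2) (b := al z.1.1 z.2)
    (by rw [al_sq]; nlinarith [sq_nonneg z.2.1, sq_nonneg z.2.2]) (al_nonneg _ _)
  unfold F; linarith [h.1]

lemma F_pos (p : ℝ × ℝ) {v : ℝ × ℝ} (h : v ≠ 0) : 0 < F (p, v) := by
  have h1 := rad_pos h
  have h2 := abs_lt_of_sq_lt_sq' (a := p.1 * v.2) (b := al p.1 v)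
    (by rw [al_sq]; nlinarith) (al_nonneg _ _)
  unfold F; simp only; linarith [h2.1]

lemma hd_al (u : ℝ) {v : ℝ × ℝ} (h : v ≠ 0) :
    HasFDerivAt (al u) ((v.1 / al u v) • e1 + ((1 + u ^ 2) * v.2 / al u v) • e2) v := by
  have h1 : HasFDerivAt (fun w : ℝ × ℝ => w.1 ^ 2 + (1 + u ^ 2) * w.2 ^ 2)
      ((2 * v.1) • e1 + (2 * (1 + u ^ 2) * v.2) • e2) v := by
    have a := (hasFDerivAt_fst (𝕜 := ℝ) (p := v)).pow 2
    have b := ((hasFDerivAt_snd (𝕜 := ℝ) (p := v)).pow 2).const_mul (1 + u ^ 2)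
    refine (a.add b).congr_fderiv ?_
    ext <;> simp
    ring
  have h2 := h1.sqrt (rad_pos' u h).ne'
  have h3 := (al_pos u h).ne'
  refine h2.congr_fderiv ?_
  change (1 / (2 * al u v)) • _ = _
  ext <;> simp <;> field_simp

lemma hd_F (p : ℝ × ℝ) {v : ℝ × ℝ} (h : v ≠ 0) :
    HasFDerivAt (fun w => F (p, w))
      ((v.1 / al p.1 v) • e1 + ((1 + p.1 ^ 2) * v.2 / al p.1 v + p.1) • e2) v := by
  have b := (hasFDerivAt_snd (𝕜 := ℝ) (p := v)).const_mul p.1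
  refine ((hd_al p.1 h).add b).congr_fderiv ?_
  ext <;> simp

noncomputable def PP (p v : ℝ × ℝ) : ℝ := 2 * F (p, v) * (v.1 / al p.1 v)
noncomputable def QQ (p v : ℝ × ℝ) : ℝ := 2 * F (p, v) * ((1 + p.1 ^ 2) * v.2 / al p.1 v + p.1)
noncomputable def RR (p v : ℝ × ℝ) : ℝ := 2 * F (p, v) * (p.1 * v.2 ^ 2 / al p.1 v + v.2)

lemma dV (p : ℝ × ℝ) {v : ℝ × ℝ} (h : v ≠ 0) :
    fderiv ℝ (fun w => F (p, w) ^ 2) v = PP p v • e1 + QQ p v • e2 := by
  rw [((hd_F p h).pow 2).fderiv]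
  ext <;> simp [PP, QQ]

lemma dQ (p : ℝ × ℝ) {v : ℝ × ℝ} (h : v ≠ 0) :
    fderiv ℝ (fun q => F (q, v) ^ 2) p = RR p v • e1 := by
  have h1 : HasFDerivAt (fun q : ℝ × ℝ => v.1 ^ 2 + (1 + q.1 ^ 2) * v.2 ^ 2)
      ((2 * p.1 * v.2 ^ 2) • e1) p := by
    have a := ((((hasFDerivAt_fst (𝕜 := ℝ) (p := p)).pow 2).const_add 1).mul_const
      (v.2 ^ 2)).const_add (v.1 ^ 2)
    refine a.congr_fderiv ?_
    ext <;> simp
    ring
  have h2 := h1.sqrt (rad_pos' p.1 h).ne'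
  have h3 := (al_pos p.1 h).ne'
  have h4 : HasFDerivAt (fun q => F (q, v)) ((p.1 * v.2 ^ 2 / al p.1 v + v.2) • e1) p := by
    have b := (hasFDerivAt_fst (𝕜 := ℝ) (p := p)).mul_const v.2
    refine (h2.add b).congr_fderiv ?_
    change (1 / (2 * al p.1 v)) • _ + _ = _
    ext <;> simp
    field_simp
  rw [(h4.pow 2).fderiv]
  ext <;> simp [RR]

lemma hess_pos (p v w : ℝ × ℝ) (h : v ≠ 0) (hw : w ≠ 0) :
    0 < fderiv ℝ (fderiv ℝ (fun u : ℝ × ℝ => F (p, u) ^ 2)) v w w := by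
  have hev : fderiv ℝ (fun u : ℝ × ℝ => F (p, u) ^ 2) =ᶠ[nhds v]
      fun x => PP p x • e1 + QQ p x • e2 := by
    filter_upwards [isOpen_ne.mem_nhds h] with x hx using dV p hx
  rw [hev.fderiv_eq]
  have ha := al_pos p.1 h
  have hF := F_pos p h
  have hi : HasFDerivAt (fun x => (al p.1 x)⁻¹) _ v :=
    (hasDerivAt_inv ha.ne').comp_hasFDerivAt v (hd_al p.1 h)
  have hP : HasFDerivAt (PP p) _ v :=
    (((hd_F p h).const_mul 2).mul ((hasFDerivAt_fst (𝕜 := ℝ) (p := v)).mul hi))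
  have hQ : HasFDerivAt (QQ p) _ v :=
    (((hd_F p h).const_mul 2).mul
      (((((hasFDerivAt_snd (𝕜 := ℝ) (p := v)).const_mul (1 + p.1 ^ 2)).mul hi)).add_const p.1))
  have hS : HasFDerivAt (fun x => PP p x • e1 + QQ p x • e2) _ v :=
    ((hP.smul_const e1).add (hQ.smul_const e2))
  rw [hS.fderiv]
  simp
  have hs := al_sq p.1 v
  have hFe : F (p, v) = al p.1 v + p.1 * v.2 := rfl
  generalize F (p, v) = f at *
  generalize al p.1 v = a at *
  clear hS hP hQ hi hev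
  have key : 0 < 2 * f * (1 + p.1 ^ 2) * (v.1 * w.2 - v.2 * w.1) ^ 2 / a ^ 3 +
      2 * ((v.1 * w.1 + (1 + p.1 ^ 2) * v.2 * w.2 + p.1 * a * w.2) / a) ^ 2 := by
    by_cases hD : v.1 * w.2 - v.2 * w.1 = 0
    · have hL : v.1 * w.1 + (1 + p.1 ^ 2) * v.2 * w.2 + p.1 * a * w.2 ≠ 0 := by
        intro hL
        apply hw
        have e1 : w.1 * (a * f) = 0 := by
          rw [hFe]
          linear_combination w.1 * hs + v.1 * hL - ((1 + p.1 ^ 2) * v.2 + p.1 * a) * hD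
        have e2 : w.2 * (a * f) = 0 := by
          rw [hFe]
          linear_combination w.2 * hs + v.2 * hL + v.1 * hD
        have h0 : a * f ≠ 0 := by positivity
        exact Prod.ext ((mul_eq_zero.1 e1).resolve_right h0) ((mul_eq_zero.1 e2).resolve_right h0)
      have : 0 < ((v.1 * w.1 + (1 + p.1 ^ 2) * v.2 * w.2 + p.1 * a * w.2) / a) ^ 2 := by
        positivity
      rw [hD]; simpa using this
    · positivity
  refine key.trans_eq ?_
  field_simp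
  linear_combination (-(f * (w.1 ^ 2 + (1 + p.1 ^ 2) * w.2 ^ 2))) * hs

lemma no_max (u a P : ℝ → ℝ) (hu : ∀ t, HasDerivAt u (a t) t) (t0 R : ℝ)
    (hmax : ∀ t, u t ≤ u t0) (hP : HasDerivAt P R t0) (h0 : P t0 = 0) (hR : 0 < R)
    (hPa : ∀ s, 0 < P s → 0 < a s) : False := by
  have h1 := hasDerivAt_iff_tendsto_slope_zero.1 hP
  have h2 : ∀ᶠ s in nhdsWithin (0 : ℝ) {0}ᶜ, 0 < s⁻¹ • (P (t0 + s) - P t0) :=
    h1.eventually (lt_mem_nhds hR)
  rw [eventually_nhdsWithin_iff, Metric.eventually_nhds_iff] at h2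
  obtain ⟨e, he, h3⟩ := h2
  obtain ⟨c, hc, h4⟩ := exists_hasDerivAt_eq_slope u a (a := t0) (b := t0 + e / 2) (by linarith)
    (fun x _ => (hu x).continuousAt.continuousWithinAt) (fun x _ => hu x)
  have h5 := h3 (y := c - t0) (by
    rw [Real.dist_eq, sub_zero, abs_of_pos (by linarith [hc.1])]; linarith [hc.2])
    (by simp only [Set.mem_compl_iff, Set.mem_singleton_iff]; linarith [hc.1] )
  have h6 : 0 < c - t0 := by linarith [hc.1]
  rw [h0, sub_zero, smul_eq_mul, add_sub_cancel] at h5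
  have h7 : 0 < P c := (mul_pos_iff_of_pos_left (inv_pos.2 h6)).1 h5
  have h8 := hPa c h7
  rw [h4] at h8
  have h9 : (u (t0 + e / 2) - u t0) / (t0 + e / 2 - t0) ≤ 0 :=
    div_nonpos_of_nonpos_of_nonneg (by linarith [hmax (t0 + e / 2)]) (by linarith)
  linarith

lemma no_closed : ¬ ∃ γ : ℝ → ℝ × ℝ, ∃ T : ℝ, ∃ k : ℤ,
    ContDiff ℝ 2 γ ∧ 0 < T ∧ (∀ t, deriv γ t ≠ 0) ∧
    (∀ t, γ (t + T) = γ t + ((0 : ℝ), 2 * Real.pi * (k : ℝ))) ∧
    ∀ t : ℝ,
      deriv (fun s => fderiv ℝ (fun u : ℝ × ℝ => F (γ s, u) ^ 2) (deriv γ s)) t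
        = fderiv ℝ (fun q : ℝ × ℝ => F (q, deriv γ t) ^ 2) (γ t) := by
  rintro ⟨γ, T, k, hγ, hT, hne, hper, hEL⟩
  have hd1 : Differentiable ℝ γ := hγ.differentiable (by norm_num)
  have hd2 : Differentiable ℝ (deriv γ) :=
    (contDiff_succ_iff_deriv.1 (show ContDiff ℝ (1 + 1) γ from hγ)).2.2.differentiable
      (by norm_num)
  have hal : Differentiable ℝ (fun s => al (γ s).1 (deriv γ s)) := by
    unfold al
    exact Differentiable.sqrt (by fun_prop) fun s => (rad_pos' _ (hne s)).ne'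
  have hF : Differentiable ℝ (fun s => F (γ s, deriv γ s)) := by
    unfold F
    exact hal.add (by fun_prop)
  have ha0 : ∀ s, al (γ s).1 (deriv γ s) ≠ 0 := fun s => (al_pos _ (hne s)).ne'
  have hP : Differentiable ℝ (fun s => PP (γ s) (deriv γ s)) :=
    (hF.const_mul 2).mul (Differentiable.div (by fun_prop) hal ha0)
  have hQ : Differentiable ℝ (fun s => QQ (γ s) (deriv γ s)) :=
    (hF.const_mul 2).mul ((Differentiable.div (by fun_prop) hal ha0).add (by fun_prop))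
  have hE : ∀ t, deriv (fun s => PP (γ s) (deriv γ s)) t = RR (γ t) (deriv γ t) ∧
      deriv (fun s => QQ (γ s) (deriv γ s)) t = 0 := by
    intro t
    have h := hEL t
    rw [dQ _ (hne t), funext fun s => dV (γ s) (hne s)] at h
    have hS : HasDerivAt (fun s => PP (γ s) (deriv γ s) • e1 + QQ (γ s) (deriv γ s) • e2) _ t :=
      ((hP t).hasDerivAt.smul_const e1).add ((hQ t).hasDerivAt.smul_const e2)
    rw [hS.deriv] at h
    have h1 := congrArg (fun L : ℝ × ℝ →L[ℝ] ℝ => L (1, 0)) h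
    have h2 := congrArg (fun L : ℝ × ℝ →L[ℝ] ℝ => L (0, 1)) h
    simp at h1 h2
    exact ⟨h1, h2⟩
  have hQc := is_const_of_deriv_eq_zero hQ fun t => (hE t).2
  have hu : ∀ t, HasDerivAt (fun s => (γ s).1) (deriv γ t).1 t := fun t =>
    (hasFDerivAt_fst (𝕜 := ℝ) (p := γ t)).comp_hasDerivAt t (hd1 t).hasDerivAt
  have hp : Function.Periodic (fun s => (γ s).1) T := fun t => by simp [hper t]
  have hc : Continuous fun s => (γ s).1 := hd1.continuous.fst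
  have hK : IsCompact (Set.range fun s => (γ s).1) := hp.compact_of_continuous hT.ne' hc
  obtain ⟨_, ⟨t0, rfl⟩, h0⟩ := hK.exists_isGreatest (Set.range_nonempty _)
  obtain ⟨_, ⟨t1, rfl⟩, h1⟩ := hK.exists_isLeast (Set.range_nonempty _)
  have hmax : ∀ t, (γ t).1 ≤ (γ t0).1 := fun t => h0 ⟨t, rfl⟩
  have hmin : ∀ t, (γ t1).1 ≤ (γ t).1 := fun t => h1 ⟨t, rfl⟩
  have z0 : (deriv γ t0).1 = 0 :=
    IsLocalMax.hasDerivAt_eq_zero (Filter.Eventually.of_forall hmax) (hu t0)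
  have z1 : (deriv γ t1).1 = 0 :=
    IsLocalMin.hasDerivAt_eq_zero (Filter.Eventually.of_forall hmin) (hu t1)
  have sg : ∀ p v : ℝ × ℝ, v ≠ 0 → v.1 = 0 → 0 < QQ p v * v.2 ∧ 0 < RR p v * v.2 := by
    intro p v hv h
    have ha := al_pos p.1 hv
    have hf := F_pos p hv
    have hs := al_sq p.1 v
    have hb : v.2 ≠ 0 := fun hb => hv (Prod.ext h hb)
    have hFe : F (p, v) = al p.1 v + p.1 * v.2 := rfl
    rw [h] at hs
    constructor
    · have : QQ p v * v.2 = 2 * F (p, v) ^ 2 := by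
        unfold QQ
        rw [hFe]; field_simp
        linear_combination (-(al p.1 v + p.1 * v.2)) * hs
      rw [this]; positivity
    · have : RR p v * v.2 = 2 * F (p, v) ^ 2 * v.2 ^ 2 / al p.1 v := by
        unfold RR
        rw [hFe]; field_simp
        ring
      rw [this]; positivity
  obtain ⟨a0, b0⟩ := sg (γ t0) _ (hne t0) z0
  obtain ⟨a1, b1⟩ := sg (γ t1) _ (hne t1) z1
  have hq := hQc t0 t1
  have hPa : ∀ s, 0 < 2 * F (γ s, deriv γ s) / al (γ s).1 (deriv γ s) ∧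
      PP (γ s) (deriv γ s) =
        2 * F (γ s, deriv γ s) / al (γ s).1 (deriv γ s) * (deriv γ s).1 := fun s =>
    ⟨div_pos (by linarith [F_pos (γ s) (hne s)]) (al_pos _ (hne s)), by unfold PP; ring⟩
  rcases lt_or_ge 0 (QQ (γ t0) (deriv γ t0)) with hq0 | hq0
  · refine no_max _ _ (fun s => PP (γ s) (deriv γ s)) hu t0 _ hmax (hP t0).hasDerivAt
      (by simp [PP, z0]) ?_ fun s hs => ?_
    · rw [(hE t0).1]
      have := (mul_pos_iff_of_pos_left hq0).1 a0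
      exact (mul_pos_iff_of_pos_right this).1 b0
    · simp only [(hPa s).2] at hs
      exact (mul_pos_iff_of_pos_left (hPa s).1).1 hs
  · refine no_max (fun s => -(γ s).1) (fun s => -(deriv γ s).1)
      (fun s => -PP (γ s) (deriv γ s)) (fun t => (hu t).neg) t1 _
      (fun t => neg_le_neg (hmin t)) (hP t1).hasDerivAt.neg (by simp [PP, z1]) ?_ fun s hs => ?_
    · rw [(hE t1).1]
      rw [hq] at hq0
      have hb : (deriv γ t1).2 < 0 := by
        by_contra hb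
        nlinarith [not_lt.1 hb]
      by_contra hr
      nlinarith [not_lt.1 hr]
    · simp only [(hPa s).2] at hs
      by_contra hr
      nlinarith [not_lt.1 hr, (hPa s).1]

end Pool.Agent.H.MP_03b7b7_gt
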