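import Mathlib
import Pool.Agent.H.MP_03b7b7_gt.A

set_option autoImplicit false

namespace Pool.Agent.H.MP_03b7b7_gt

open MeasureTheory

lemma unb (c d M : ℝ) (hc : c ≠ 0) :
    (∃ τ, 0 ≤ τ ∧ M ≤ (d + c * τ) ^ 2) ∧ ∃ τ, τ ≤ 0 ∧ M ≤ (d + c * τ) ^ 2 := by
  have hc' : 0 < |c| := abs_pos.2 hc
  have key : ∀ τ, |τ| = (|d| + |M| + 1) / |c| → M ≤ (d + c * τ) ^ 2 := by
    intro τ h
    have h1 : |c * τ| = |d| + |M| + 1 := by rw [abs_mul, h]; field_simp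
    have h2 : |c * τ| ≤ |d + c * τ| + |d| := by
      have := abs_sub (d + c * τ) d
      rwa [add_sub_cancel_left] at this
    have h3 : |M| + 1 ≤ |d + c * τ| := by linarith
    rw [← sq_abs]
    nlinarith [le_abs_self M, abs_nonneg M]
  have h0 : 0 ≤ (|d| + |M| + 1) / |c| := by positivity
  exact ⟨⟨_, h0, key _ (abs_of_nonneg h0)⟩,
    ⟨-((|d| + |M| + 1) / |c|), by linarith, key _ (by rw [abs_neg, abs_of_nonneg h0])⟩⟩

lemma smooth_of_deriv {f g : ℝ → ℝ} (h : ∀ t, HasDerivAt f (g t) t) (hg : ContDiff ℝ 1 g) :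
    ContDiff ℝ 2 f := by
  refine (contDiff_succ_iff_deriv (n := 1)).2 ⟨fun t => (h t).differentiableAt, by simp, ?_⟩
  rw [funext fun t => (h t).deriv]
  exact hg

lemma complete (x v : ℝ × ℝ) (hv : v ≠ 0) : ∃ γ : ℝ → ℝ × ℝ, ContDiff ℝ 2 γ ∧ γ 0 = x ∧
    deriv γ 0 = v ∧ (∀ t, deriv γ t ≠ 0) ∧ ∀ t : ℝ,
      deriv (fun s => fderiv ℝ (fun u : ℝ × ℝ => F (γ s, u) ^ 2) (deriv γ s)) t
        = fderiv ℝ (fun q : ℝ × ℝ => F (q, deriv γ t) ^ 2) (γ t) := by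
  have ha := al_pos x.1 hv
  have hE := F_pos x hv
  have hs := al_sq x.1 v
  have hFe : F (x, v) = al x.1 v + x.1 * v.2 := rfl
  generalize F (x, v) = E at hE hFe
  generalize al x.1 v = a0 at ha hs hFe
  obtain ⟨S0, hS0, hS0'⟩ : ∃ S0 : ℝ, S0 = Real.sqrt (1 + x.1 ^ 2) ∧ 0 < S0 :=
    ⟨_, rfl, by positivity⟩
  have hS2 : S0 ^ 2 = 1 + x.1 ^ 2 := by rw [hS0]; exact Real.sq_sqrt (by positivity)
  obtain ⟨u1, hu1⟩ : ∃ u1 : ℝ, u1 = v.1 * S0 / a0 := ⟨_, rfl⟩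
  obtain ⟨J, hJ⟩ : ∃ J : ℝ, J = x.1 + (1 + x.1 ^ 2) * v.2 / a0 := ⟨_, rfl⟩
  have hid : u1 ^ 2 + (J - x.1) ^ 2 = 1 + x.1 ^ 2 := by
    rw [hu1, hJ]; field_simp
    linear_combination v.1 ^ 2 * hS2 - (1 + x.1 ^ 2) * hs
  obtain ⟨U, hU⟩ : ∃ U : ℝ → ℝ, U = fun τ => x.1 + u1 * τ + J * τ ^ 2 / 2 := ⟨_, rfl⟩
  have hUd : ∀ τ, HasDerivAt U (u1 + J * τ) τ := by
    intro τ
    rw [hU]
    have := (((hasDerivAt_id τ).const_mul u1).const_add x.1).add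
      ((((hasDerivAt_id τ).pow 2).const_mul J).div_const 2)
    refine this.congr_deriv ?_
    simp; ring
  have hUs : ContDiff ℝ 2 U := by rw [hU]; fun_prop
  have hU0 : U 0 = x.1 := by simp [hU]
  have hI : ∀ τ, (u1 + J * τ) ^ 2 + (J - U τ) ^ 2 = 1 + U τ ^ 2 := by
    intro τ; rw [hU]; linear_combination hid
  have hpos : ∀ τ, 0 < 1 + J * U τ := by
    intro τ; nlinarith [hI τ, sq_nonneg (u1 + J * τ), sq_nonneg J]
  obtain ⟨S, hS⟩ : ∃ S : ℝ → ℝ, S = fun τ => Real.sqrt (1 + U τ ^ 2) := ⟨_, rfl⟩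
  have hSp : ∀ τ, 0 < S τ := fun τ => by rw [hS]; positivity
  have hSq : ∀ τ, S τ ^ 2 = 1 + U τ ^ 2 := fun τ => by
    rw [hS]; exact Real.sq_sqrt (by positivity)
  have hSs : ContDiff ℝ 2 S := by
    rw [hS]; exact ContDiff.sqrt (by fun_prop) fun τ => by positivity
  have hSd : ∀ τ, HasDerivAt S (U τ * (u1 + J * τ) / S τ) τ := by
    intro τ
    have h1 := (((hUd τ).pow 2).const_add 1).sqrt
      (show 1 + U τ ^ 2 ≠ 0 by positivity)
    have h2 := (hSp τ).ne'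
    rw [hS] at h2 ⊢
    refine h1.congr_deriv ?_
    simp only [Pi.pow_apply] at h2 ⊢
    field_simp
    simp
    ring
  have hS00 : S 0 = S0 := by rw [hS, hS0]; simp [hU0]
  have g1s : ContDiff ℝ 2 fun τ => (1 + J * U τ) / (S τ * E) :=
    ContDiff.div (by fun_prop) (by fun_prop) fun τ => (mul_pos (hSp τ) hE).ne'
  have g2s : ContDiff ℝ 2 fun τ => (J - U τ) / S τ :=
    ContDiff.div (by fun_prop) hSs fun τ => (hSp τ).ne'
  obtain ⟨Tm, hT0, hTd⟩ : ∃ Tm : ℝ → ℝ, Tm 0 = 0 ∧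
      ∀ τ, HasDerivAt Tm ((1 + J * U τ) / (S τ * E)) τ :=
    ⟨fun τ => ∫ s in (0 : ℝ)..τ, (1 + J * U s) / (S s * E), by simp,
      fun τ => (g1s.continuous.integral_hasStrictDerivAt 0 τ).hasDerivAt⟩
  obtain ⟨Θ, hΘ0, hΘd⟩ : ∃ Θ : ℝ → ℝ, Θ 0 = x.2 ∧ ∀ τ, HasDerivAt Θ ((J - U τ) / S τ) τ :=
    ⟨fun τ => x.2 + ∫ s in (0 : ℝ)..τ, (J - U s) / S s, by simp,
      fun τ => (g2s.continuous.integral_hasStrictDerivAt 0 τ).hasDerivAt.const_add _⟩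
  have hTs := smooth_of_deriv hTd (g1s.of_le (by norm_num))
  have hΘs := smooth_of_deriv hΘd (g2s.of_le (by norm_num))
  have g1p : ∀ τ, 0 < (1 + J * U τ) / (S τ * E) := fun τ =>
    div_pos (hpos τ) (mul_pos (hSp τ) hE)
  have hmono : StrictMono Tm := strictMono_of_hasDerivAt_pos hTd g1p
  have hlog : ∀ τ, HasDerivAt (fun τ => Real.log (S τ)) (U τ * (u1 + J * τ) / S τ / S τ) τ :=
    fun τ => (hSd τ).log (hSp τ).ne'
  have hb : ∀ τ, |U τ * (u1 + J * τ) / S τ / S τ| ≤ E * ((1 + J * U τ) / (S τ * E)) := by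
    intro τ
    have h1 := hSp τ
    have h2 : |u1 + J * τ| ≤ 1 + J * U τ :=
      abs_le_of_sq_le_sq (by nlinarith [hI τ, sq_nonneg (J * U τ), sq_nonneg J]) (hpos τ).le
    have h3 : |U τ| ≤ S τ := abs_le_of_sq_le_sq (by nlinarith [hSq τ]) h1.le
    rw [abs_div, abs_div, abs_mul, abs_of_pos h1]
    have : E * ((1 + J * U τ) / (S τ * E)) = S τ * (1 + J * U τ) / S τ / S τ := by field_simp
    rw [this]
    gcongr
  have m1 : Monotone fun τ => E * Tm τ - Real.log (S τ) :=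
    monotone_of_hasDerivAt_nonneg (fun τ => ((hTd τ).const_mul E).sub (hlog τ))
      fun τ => by have := (abs_le.1 (hb τ)).2; simp only [Pi.zero_apply]; linarith
  have m2 : Monotone fun τ => E * Tm τ + Real.log (S τ) :=
    monotone_of_hasDerivAt_nonneg (fun τ => ((hTd τ).const_mul E).add (hlog τ))
      fun τ => by have := (abs_le.1 (hb τ)).1; simp only [Pi.zero_apply]; linarith
  have hun : ∀ M : ℝ, (∃ τ, 0 ≤ τ ∧ M ≤ Real.log (S τ)) ∧ ∃ τ, τ ≤ 0 ∧ M ≤ Real.log (S τ) := by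
    intro M
    have k : ∀ τ, Real.exp M ^ 2 ≤ S τ ^ 2 → M ≤ Real.log (S τ) := fun τ h =>
      (Real.le_log_iff_exp_le (hSp τ)).2
        (abs_le_of_sq_le_sq' h (hSp τ).le).2
    by_cases hJ0 : J = 0
    · have hu : u1 ≠ 0 := by
        intro h; rw [h, hJ0] at hid; nlinarith
      obtain ⟨⟨t1, a1, b1⟩, t2, a2, b2⟩ := unb u1 x.1 (Real.exp M ^ 2) hu
      have e : ∀ τ, U τ = x.1 + u1 * τ := fun τ => by rw [hU, hJ0]; simp
      exact ⟨⟨t1, a1, k _ (by rw [hSq, e]; linarith)⟩, t2, a2, k _ (by rw [hSq, e]; linarith)⟩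
    · obtain ⟨⟨t1, a1, b1⟩, t2, a2, b2⟩ := unb J u1 (Real.exp M ^ 2) hJ0
      exact ⟨⟨t1, a1, k _ (by rw [hSq, ← hI]; nlinarith [sq_nonneg (J - U t1)])⟩, t2, a2,
        k _ (by rw [hSq, ← hI]; nlinarith [sq_nonneg (J - U t2)])⟩
  have hsurj : Function.Surjective Tm := by
    intro y
    obtain ⟨⟨t1, a1, b1⟩, -⟩ := hun (E * y + Real.log (S 0))
    obtain ⟨-, t2, a2, b2⟩ := hun (-(E * y) + Real.log (S 0))
    have c1 := m1 a1
    have c2 := m2 a2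
    simp only [hT0] at c1 c2
    refine mem_range_of_exists_le_of_exists_ge hTs.continuous ⟨t2, ?_⟩ ⟨t1, ?_⟩
    · exact le_of_mul_le_mul_left (by linarith) hE
    · exact le_of_mul_le_mul_left (by linarith) hE
  let H : ℝ ≃ₜ ℝ := (hmono.orderIsoOfSurjective Tm hsurj).toHomeomorph
  have hH : (H : ℝ → ℝ) = Tm := rfl
  have hσs : ContDiff ℝ 2 H.symm :=
    H.contDiff_symm_deriv (fun τ => (g1p τ).ne') (by rw [hH]; exact hTd) (by rw [hH]; exact hTs)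
  obtain ⟨σ, hσ⟩ : ∃ σ : ℝ → ℝ, σ = H.symm := ⟨_, rfl⟩
  rw [← hσ] at hσs
  have hσ0 : σ 0 = 0 := by
    rw [hσ, H.symm_apply_eq, hH, hT0]
  have hσd : ∀ t, HasDerivAt σ ((1 + J * U (σ t)) / (S (σ t) * E))⁻¹ t := fun t =>
    HasDerivAt.of_local_left_inverse hσs.continuous.continuousAt (hTd (σ t)) (g1p _).ne'
      (Filter.Eventually.of_forall fun y => by rw [hσ, ← hH]; exact H.apply_symm_apply y)
  obtain ⟨l, hl⟩ : ∃ l : ℝ → ℝ, l = fun t => ((1 + J * U (σ t)) / (S (σ t) * E))⁻¹ := ⟨_, rfl⟩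
  have hlp : ∀ t, 0 < l t := fun t => by rw [hl]; exact inv_pos.2 (g1p _)
  have hlE : ∀ t, l t * (1 + J * U (σ t)) = S (σ t) * E := fun t => by
    have := (hpos (σ t)).ne'
    rw [hl]; field_simp
  replace hσd : ∀ t, HasDerivAt σ (l t) t := by rw [hl]; exact hσd
  have hγd : ∀ t, deriv (fun t => (U (σ t), Θ (σ t))) t =
      ((u1 + J * σ t) * l t, (J - U (σ t)) / S (σ t) * l t) := fun t =>
    (((hUd (σ t)).comp t (hσd t)).prodMk ((hΘd (σ t)).comp t (hσd t))).deriv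
  have hal : ∀ t (y : ℝ), al (U (σ t), y).1
      ((u1 + J * σ t) * l t, (J - U (σ t)) / S (σ t) * l t) = S (σ t) * l t := by
    intro t y
    have h1 := hSp (σ t)
    unfold al
    rw [Real.sqrt_eq_iff_mul_self_eq_of_pos (mul_pos h1 (hlp t))]
    simp only
    rw [← hSq]
    field_simp
    linear_combination l t ^ 2 * (hSq (σ t) - hI (σ t))
  have hne : ∀ t, ((u1 + J * σ t) * l t, (J - U (σ t)) / S (σ t) * l t) ≠ (0 : ℝ × ℝ) := by
    intro t h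
    have := hal t 0
    rw [h] at this
    simp only [al, Prod.fst_zero, Prod.snd_zero] at this
    have h2 := mul_pos (hSp (σ t)) (hlp t)
    simp at this
    rcases this with h | h
    · exact (hSp _).ne' h
    · exact (hlp _).ne' h
  have hFc : ∀ t (y : ℝ), F ((U (σ t), y),
      ((u1 + J * σ t) * l t, (J - U (σ t)) / S (σ t) * l t)) = E := by
    intro t y
    have h1 := (hSp (σ t)).ne'
    unfold F
    simp only
    rw [hal t y]
    field_simp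
    linear_combination l t * hSq (σ t) + hlE t
  refine ⟨fun t => (U (σ t), Θ (σ t)), (hUs.comp hσs).prodMk (hΘs.comp hσs), ?_, ?_,
    fun t => by rw [hγd]; exact hne t, fun t => ?_⟩
  · simp [hσ0, hU0, hΘ0]
  · have h := hlE 0
    rw [hσ0, hU0, hS00] at h
    have h1 : l 0 = a0 / S0 := by
      have h2 : 1 + J * x.1 = S0 ^ 2 * E / a0 := by
        rw [hJ, hFe, hS2]; field_simp; ring
      rw [h2] at h
      field_simp at h ⊢
      linarith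
    rw [hγd, hσ0, hU0, hS00, h1, hu1, hJ, ← hS2]
    ext <;> simp <;> field_simp
  · simp only [hγd]
    rw [dQ _ (hne t), funext fun s => dV (U (σ s), Θ (σ s)) (hne s)]
    have hPQ : ∀ s, PP (U (σ s), Θ (σ s))
        ((u1 + J * σ s) * l s, (J - U (σ s)) / S (σ s) * l s) • e1 + QQ (U (σ s), Θ (σ s))
        ((u1 + J * σ s) * l s, (J - U (σ s)) / S (σ s) * l s) • e2 =
        (2 * E * ((u1 + J * σ s) / S (σ s))) • e1 + (2 * E * J) • e2 := by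
      intro s
      have h1 := (hSp (σ s)).ne'
      have h2 := (hlp s).ne'
      unfold PP QQ
      rw [hFc, hal]
      simp only
      rw [← hSq]
      congr 2
      · field_simp
      · field_simp; ring
    rw [funext hPQ]
    have hd : HasDerivAt (fun s => (2 * E * ((u1 + J * σ s) / S (σ s))) • e1 + (2 * E * J) • e2)
        _ t :=
      ((((((hσd t).const_mul J).const_add u1).div ((hSd (σ t)).comp t (hσd t))
        (hSp _).ne').const_mul (2 * E)).smul_const e1).add_const _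
    rw [hd.deriv]
    congr 1
    have h1 := (hSp (σ t)).ne'
    have h2 := (hlp t).ne'
    unfold RR
    rw [hFc, hal]
    simp only [Function.comp]
    field_simp
    linear_combination U (σ t) * hSq (σ t) - U (σ t) * hI (σ t)

lemma ball_vol (x : ℝ × ℝ) :
    ENNReal.ofReal (1 + x.1 ^ 2) ≤ volume {v : ℝ × ℝ | F (x, v) ≤ 1} := by
  obtain ⟨S, hS⟩ : ∃ S : ℝ, S = Real.sqrt (1 + x.1 ^ 2) := ⟨_, rfl⟩
  have hS0 : 0 < S := by rw [hS]; positivity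
  have hS2 : S ^ 2 = 1 + x.1 ^ 2 := by rw [hS]; exact Real.sq_sqrt (by positivity)
  have hsub : Set.Icc (-(S / 2)) (S / 2) ×ˢ Set.Icc (-x.1 - S / 2) (-x.1 + S / 2) ⊆
      {v : ℝ × ℝ | F (x, v) ≤ 1} := by
    rintro ⟨a, b⟩ ⟨⟨a1, a2⟩, b1, b2⟩
    simp only at a1 a2 b1 b2
    have h1 : a ^ 2 ≤ (S / 2) ^ 2 := sq_le_sq' a1 a2
    have h2 : (b + x.1) ^ 2 ≤ (S / 2) ^ 2 := sq_le_sq' (by linarith) (by linarith)
    have h3 : a ^ 2 + b ^ 2 + 2 * (x.1 * b) ≤ 1 := by nlinarith [sq_nonneg S]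
    have h4 : 0 ≤ 1 - x.1 * b := by nlinarith [sq_nonneg a, sq_nonneg b]
    have h5 : al x.1 (a, b) ≤ 1 - x.1 * b :=
      Real.sqrt_le_iff.2 ⟨h4, by simp only; nlinarith⟩
    simp only [Set.mem_setOf_eq, F]
    linarith
  refine le_trans (le_of_eq ?_) (measure_mono hsub)
  rw [Measure.volume_eq_prod, Measure.prod_prod, Real.volume_Icc, Real.volume_Icc,
    ← ENNReal.ofReal_mul (by linarith)]
  congr 1
  linarith

lemma vol_fin : (∫⁻ x in (Set.univ : Set ℝ) ×ˢ Set.Ico (0 : ℝ) (2 * Real.pi),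
    ENNReal.ofReal Real.pi / volume {v : ℝ × ℝ | F (x, v) ≤ 1}) < ⊤ := by
  have h1 : ∀ x : ℝ × ℝ, ENNReal.ofReal Real.pi / volume {v : ℝ × ℝ | F (x, v) ≤ 1} ≤
      ENNReal.ofReal (Real.pi * (1 + x.1 ^ 2)⁻¹) := by
    intro x
    rw [← div_eq_mul_inv, ENNReal.ofReal_div_of_pos (by positivity)]
    exact ENNReal.div_le_div_left (ball_vol x) _
  refine (lintegral_mono h1).trans_lt ?_
  rw [Measure.volume_eq_prod, ← Measure.prod_restrict, Measure.restrict_univ,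
    lintegral_prod _ (by fun_prop)]
  simp only [lintegral_const]
  rw [lintegral_mul_const _ (by fun_prop)]
  refine ENNReal.mul_lt_top ?_ (by rw [Measure.restrict_apply_univ]; exact measure_Ico_lt_top)
  exact (integrable_inv_one_add_sq.const_mul Real.pi).lintegral_lt_top

theorem main : ∃ F : (ℝ × ℝ) × (ℝ × ℝ) → ℝ,
    Continuous F ∧
    (∀ z, 0 ≤ F z) ∧
    ContDiffOn ℝ ((⊤ : ℕ∞) : WithTop ℕ∞) F {z | z.2 ≠ 0} ∧
    (∀ p v : ℝ × ℝ, F ((p.1, p.2 + 2 * Real.pi), v) = F (p, v)) ∧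
    (∀ p v : ℝ × ℝ, ∀ c : ℝ, 0 < c → F (p, c • v) = c * F (p, v)) ∧
    (∀ p v w : ℝ × ℝ, v ≠ 0 → w ≠ 0 →
      0 < fderiv ℝ (fderiv ℝ (fun u : ℝ × ℝ => F (p, u) ^ 2)) v w w) ∧
    (∃ p v : ℝ × ℝ, F (p, -v) ≠ F (p, v)) ∧
    (∀ x v : ℝ × ℝ, v ≠ 0 → ∃ γ : ℝ → ℝ × ℝ, ContDiff ℝ 2 γ ∧ γ 0 = x ∧ deriv γ 0 = v ∧
      (∀ t, deriv γ t ≠ 0) ∧ ∀ t : ℝ,
        deriv (fun s => fderiv ℝ (fun u : ℝ × ℝ => F (γ s, u) ^ 2) (deriv γ s)) t
          = fderiv ℝ (fun q : ℝ × ℝ => F (q, deriv γ t) ^ 2) (γ t)) ∧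
    (∫⁻ x in (Set.univ : Set ℝ) ×ˢ Set.Ico (0 : ℝ) (2 * Real.pi),
        ENNReal.ofReal Real.pi / volume {v : ℝ × ℝ | F (x, v) ≤ 1}) < ⊤ ∧
    ¬ ∃ γ : ℝ → ℝ × ℝ, ∃ T : ℝ, ∃ k : ℤ,
        ContDiff ℝ 2 γ ∧ 0 < T ∧ (∀ t, deriv γ t ≠ 0) ∧
        (∀ t, γ (t + T) = γ t + ((0 : ℝ), 2 * Real.pi * (k : ℝ))) ∧
        ∀ t : ℝ,
          deriv (fun s => fderiv ℝ (fun u : ℝ × ℝ => F (γ s, u) ^ 2) (deriv γ s)) t
            = fderiv ℝ (fun q : ℝ × ℝ => F (q, deriv γ t) ^ 2) (γ t) := by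
  refine ⟨F, by unfold F al; fun_prop, F_nonneg, ?_, fun p v => rfl, fun p v c hc => ?_,
    hess_pos, ⟨(1, 0), (0, 1), ?_⟩, complete, vol_fin, no_closed⟩
  · unfold F al
    exact (ContDiffOn.sqrt (by fun_prop) fun z hz => (rad_pos' _ hz).ne').add (by fun_prop)
  · have : al p.1 (c • v) = c * al p.1 v := by
      unfold al
      rw [← Real.sqrt_sq hc.le, ← Real.sqrt_mul (sq_nonneg c), Real.sqrt_sq hc.le]
      congr 1
      simp only [Prod.smul_fst, Prod.smul_snd, smul_eq_mul]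
      ring
    simp only [F, this, Prod.smul_snd, smul_eq_mul]
    ring
  · simp only [F, al]
    norm_num

end Pool.Agent.H.MP_03b7b7_gt
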